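import Pool.Agent.Helper65.CG.Defs2

/-!
# UB-S5: extension of the families with advice to higher levels
-/

set_option autoImplicit false

namespace Pool.Agent.Helper65.CG

open scoped Classical
open Pool.Agent.Helper65.CliqueGame

variable {n q m : ℕ}

namespace H48

theorem UU_congr {Z Z' : Conf q n} {Y : Prs q}
    (h : ∀ p ∈ Y, Z p.1 = Z' p.1 ∧ Z p.2 = Z' p.2) : UU Z Y = UU Z' Y := by
  rw [UU, UU]
  exact Finset.biUnion_congr rfl fun p hp => by rw [(h p hp).1, (h p hp).2]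

theorem cond_congr {ℓ : Sym2 (Fin n) → ℕ} {Z Z' : Conf q n} {Y : Prs q}
    {Ex : Finset ((Fin q × Fin q) × Sym2 (Fin n))} {g : ℕ}
    (h : ∀ p ∈ Y, Z p.1 = Z' p.1 ∧ Z p.2 = Z' p.2) (hc : Cond ℓ Z Y Ex g) :
    Cond ℓ Z' Y Ex g := by
  obtain ⟨h1, h2, h3⟩ := hc
  refine ⟨fun p hp e he => h1 p hp e ?_, ?_, ?_⟩
  · rw [(h p hp).1, (h p hp).2]
    exact he
  · rwa [← UU_congr h]
  · rwa [← UU_congr h]

theorem Pt_mono {PP : Finset (Fin q)} {V : Fin q → Finset (Finset (Fin n))} {t t' : ℝ}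
    (htt : t ≤ t') : Pt PP V t ⊆ Pt PP V t' := by
  intro P hP
  rw [Pt, Finset.mem_filter] at hP ⊢
  exact ⟨hP.1, hP.2.trans htt⟩

theorem mem_Fam {ℓ : Sym2 (Fin n) → ℕ} {V : Fin q → Finset (Finset (Fin n))}
    {lev : List (Lev q n)} {x : ℕ} {Z : Conf q n} :
    Z ∈ Fam ℓ V lev x ↔ (∀ P, Z P ∈ V P) ∧
      ∀ l ∈ lev, ∃ X ⊆ l.Y, X.card ≤ x ∧ Cond ℓ Z (l.Y \ X) l.Ex l.g := by
  simp [Fam]

theorem rst_of_mem {PP : Finset (Fin q)} {Z : Conf q n} {P : Fin q} (h : P ∈ PP) :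
    rst PP Z P = Z P := if_pos h

theorem rst_of_not_mem {PP : Finset (Fin q)} {Z : Conf q n} {P : Fin q} (h : P ∉ PP) :
    rst PP Z P = ∅ := if_neg h

theorem Vt_of_mem {PP : Finset (Fin q)} {V : Fin q → Finset (Finset (Fin n))} {t : ℝ}
    {P : Fin q} (h : P ∈ Pt PP V t) : Vt PP V t P = V P := if_pos h

theorem Vt_of_not_mem {PP : Finset (Fin q)} {V : Fin q → Finset (Finset (Fin n))} {t : ℝ}
    {P : Fin q} (h : P ∉ Pt PP V t) : Vt PP V t P = {∅} := if_neg h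

/-- The levels only see the classes of level at most `t`. -/
theorem transfer {ℓ : Sym2 (Fin n) → ℕ} {PP : Finset (Fin q)}
    {V : Fin q → Finset (Finset (Fin n))} {t s : ℝ} (lev : List (Lev q n))
    (hlev : ∀ l ∈ lev, ∀ p ∈ l.Y, p.1 ∈ Pt PP V t ∧ p.2 ∈ Pt PP V t) (x : ℕ)
    {Z Z' : Conf q n} (hZZ : ∀ P ∈ Pt PP V t, Z P = Z' P)
    {V₁ : Fin q → Finset (Finset (Fin n))} (h : Z ∈ Fam ℓ V₁ lev x)
    (hV : ∀ P, Z' P ∈ Vt PP V s P) : Z' ∈ Fam ℓ (Vt PP V s) lev x := by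
  rw [mem_Fam] at h ⊢
  refine ⟨hV, fun l hl => ?_⟩
  obtain ⟨X, hX, hx, hc⟩ := h.2 l hl
  refine ⟨X, hX, hx, cond_congr (fun p hp => ?_) hc⟩
  have h1 := hlev l hl p (Finset.mem_sdiff.1 hp).1
  exact ⟨hZZ _ h1.1, hZZ _ h1.2⟩

end H48

open H48

theorem fam_mem {ℓ : Sym2 (Fin n) → ℕ} {PP : Finset (Fin q)}
    {V : Fin q → Finset (Finset (Fin n))} {t t' : ℝ}
    (htt : t ≤ t') (lev : List (Lev q n))
    (hlev : ∀ l ∈ lev, ∀ p ∈ l.Y, p.1 ∈ Pt PP V t ∧ p.2 ∈ Pt PP V t) (x : ℕ)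
    (Z : Conf q n) (hZ : ∀ P ∈ PP, Z P ∈ V P)
    (h : rst (Pt PP V t) Z ∈ Fam ℓ (Vt PP V t) lev x) :
    rst (Pt PP V t') Z ∈ Fam ℓ (Vt PP V t') lev x := by
  apply transfer lev hlev x _ h
  · intro P
    by_cases hP : P ∈ Pt PP V t'
    · rw [rst_of_mem hP, Vt_of_mem hP]
      exact hZ P (Finset.mem_filter.1 hP).1
    · rw [rst_of_not_mem hP, Vt_of_not_mem hP]
      exact Finset.mem_singleton_self _
  · intro P hP
    rw [rst_of_mem hP, rst_of_mem (Pt_mono htt hP)]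

theorem fam_ext {ℓ : Sym2 (Fin n) → ℕ} {PP : Finset (Fin q)}
    {V : Fin q → Finset (Finset (Fin n))} (hV : ∀ P ∈ PP, (V P).Nonempty) {t t' : ℝ}
    (htt : t ≤ t') (lev : List (Lev q n))
    (hlev : ∀ l ∈ lev, ∀ p ∈ l.Y, p.1 ∈ Pt PP V t ∧ p.2 ∈ Pt PP V t) (x : ℕ)
    (hne : (Fam ℓ (Vt PP V t') lev x).Nonempty) :
    lb (Fam ℓ (Vt PP V t') lev x).card ≤ lb (Fam ℓ (Vt PP V t) lev x).card +
      ∑ P ∈ Pt PP V t' \ Pt PP V t, lb (V P).card := by
  set Q : Finset (Fin q) := Pt PP V t' \ Pt PP V t with hQ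
  let W : Finset (Conf q n) := Fintype.piFinset fun P => if P ∈ Q then V P else {∅}
  have hmap : ∀ Z ∈ Fam ℓ (Vt PP V t') lev x,
      (rst (Pt PP V t) Z, rst Q Z) ∈ Fam ℓ (Vt PP V t) lev x ×ˢ W := by
    intro Z hZ
    have hZ1 := (mem_Fam.1 hZ).1
    rw [Finset.mem_product]
    refine ⟨transfer lev hlev x (fun P hP => (rst_of_mem hP).symm) hZ ?_, ?_⟩
    · intro P
      change rst (Pt PP V t) Z P ∈ _
      by_cases hP : P ∈ Pt PP V t
      · rw [rst_of_mem hP, Vt_of_mem hP]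
        have h1 := hZ1 P
        rwa [Vt_of_mem (Pt_mono htt hP)] at h1
      · rw [rst_of_not_mem hP, Vt_of_not_mem hP]
        exact Finset.mem_singleton_self _
    · rw [Fintype.mem_piFinset]
      intro P
      change rst Q Z P ∈ _
      by_cases hP : P ∈ Q
      · rw [rst_of_mem hP, if_pos hP]
        have h1 := hZ1 P
        rwa [Vt_of_mem (Finset.mem_sdiff.1 hP).1] at h1
      · rw [rst_of_not_mem hP, if_neg hP]
        exact Finset.mem_singleton_self _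
  have hinj : Set.InjOn (fun Z : Conf q n => (rst (Pt PP V t) Z, rst Q Z))
      (Fam ℓ (Vt PP V t') lev x : Set (Conf q n)) := by
    intro Z hZ Z' hZ' h
    simp only [Prod.mk.injEq] at h
    funext P
    by_cases h1 : P ∈ Pt PP V t
    · have := congrFun h.1 P
      rwa [rst_of_mem h1, rst_of_mem h1] at this
    · by_cases h2 : P ∈ Q
      · have := congrFun h.2 P
        rwa [rst_of_mem h2, rst_of_mem h2] at this
      · have h3 : P ∉ Pt PP V t' := fun h3 => h2 (Finset.mem_sdiff.2 ⟨h3, h1⟩)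
        have h4 := (mem_Fam.1 hZ).1 P
        have h5 := (mem_Fam.1 hZ').1 P
        rw [Vt_of_not_mem h3, Finset.mem_singleton] at h4 h5
        rw [h4, h5]
  have hcard := Finset.card_le_card_of_injOn _ hmap hinj
  rw [Finset.card_product] at hcard
  have hW : W.card = ∏ P ∈ Q, (V P).card := by
    rw [Fintype.card_piFinset, ← Finset.prod_filter_mul_prod_filter_not Finset.univ (· ∈ Q)]
    rw [Finset.prod_congr rfl (g := fun P => (V P).card)
      (fun P hP => by rw [if_pos (Finset.mem_filter.1 hP).2]),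
      Finset.prod_congr (s₁ := Finset.univ.filter (fun P => ¬ P ∈ Q)) rfl (g := fun _ => 1)
      (fun P hP => by rw [if_neg (Finset.mem_filter.1 hP).2, Finset.card_singleton]),
      Finset.prod_const_one, mul_one, Finset.filter_mem_eq_inter, Finset.univ_inter]
  have hpos : ∀ P ∈ Q, ((V P).card : ℝ) ≠ 0 := by
    intro P hP
    have h1 : P ∈ PP := (Finset.mem_filter.1 (Finset.mem_sdiff.1 hP).1).1
    exact Nat.cast_ne_zero.2 (Finset.card_ne_zero.2 (hV P h1))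
  have hF : (Fam ℓ (Vt PP V t) lev x).Nonempty := by
    obtain ⟨Z, hZ⟩ := hne
    exact ⟨_, (Finset.mem_product.1 (hmap Z hZ)).1⟩
  have hF' : ((Fam ℓ (Vt PP V t) lev x).card : ℝ) ≠ 0 :=
    Nat.cast_ne_zero.2 (Finset.card_ne_zero.2 hF)
  have h2 : lb (Fam ℓ (Vt PP V t') lev x).card ≤
      lb ((Fam ℓ (Vt PP V t) lev x).card * ∏ P ∈ Q, (V P).card) := by
    rw [lb, lb]
    apply Real.logb_le_logb_of_le (by norm_num)
    · exact Nat.cast_pos.2 (Finset.card_pos.2 hne)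
    · rw [← hW]
      exact_mod_cast hcard
  refine h2.trans (le_of_eq ?_)
  rw [lb, Nat.cast_mul, Nat.cast_prod, Real.logb_mul hF' (Finset.prod_ne_zero_iff.2 hpos),
    Real.logb_prod _ _ hpos]
  rfl

end Pool.Agent.Helper65.CG
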