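import Pool.Agent.Helper5.UB.Rho
import Pool.Agent.Helper57.UB.CoposSmall

/-!
# UB-F: the final numerical step
-/

set_option autoImplicit false

namespace Pool.Agent.Helper65.CG

open scoped Classical
open Pool.Agent.Helper65.CliqueGame

variable {n q m : ℕ}

namespace H48

theorem sum_sym (T : Finset (Fin q)) (f : Fin q → Fin q → ℝ) (hf : ∀ i j, f i j = f j i) :
    ∑ i ∈ T, ∑ j ∈ T, f i j = 2 * ∑ p ∈ prs T, f p.1 p.2 + ∑ i ∈ T, f i i := by
  have h1 : ∑ i ∈ T, ∑ j ∈ T, f i j = ∑ p ∈ T ×ˢ T, f p.1 p.2 := by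
    rw [Finset.sum_product]
  have h2 : ∑ p ∈ (T ×ˢ T).filter (fun p => p.2 < p.1), f p.1 p.2 =
      ∑ p ∈ prs T, f p.1 p.2 := by
    refine Finset.sum_nbij' (fun p => (p.2, p.1)) (fun p => (p.2, p.1)) ?_ ?_ ?_ ?_ ?_
    · intro p hp
      simp only [prs, Finset.mem_filter, Finset.mem_product] at hp ⊢
      exact ⟨⟨hp.1.2, hp.1.1⟩, hp.2⟩
    · intro p hp
      simp only [prs, Finset.mem_filter, Finset.mem_product] at hp ⊢
      exact ⟨⟨hp.1.2, hp.1.1⟩, hp.2⟩
    · intro p _; rfl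
    · intro p _; rfl
    · intro p _; exact hf _ _
  have h3 : ∑ p ∈ (T ×ˢ T).filter (fun p => p.1 = p.2), f p.1 p.2 = ∑ i ∈ T, f i i := by
    refine Finset.sum_nbij' (fun p => p.1) (fun i => (i, i)) ?_ ?_ ?_ ?_ ?_
    · intro p hp
      exact (Finset.mem_product.1 (Finset.mem_filter.1 hp).1).1
    · intro i hi
      simp only [Finset.mem_filter, Finset.mem_product]
      exact ⟨⟨hi, hi⟩, trivial⟩
    · intro p hp
      exact Prod.ext rfl (Finset.mem_filter.1 hp).2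
    · intro i _; rfl
    · intro p hp
      have : p.1 = p.2 := (Finset.mem_filter.1 hp).2
      rw [← this]
  rw [h1, ← Finset.sum_filter_add_sum_filter_not (T ×ˢ T) (fun p => p.1 < p.2),
    ← Finset.sum_filter_add_sum_filter_not ((T ×ˢ T).filter (fun p => ¬ p.1 < p.2))
      (fun p => p.1 = p.2), Finset.filter_filter, Finset.filter_filter]
  have h4 : (T ×ˢ T).filter (fun p => ¬ p.1 < p.2 ∧ p.1 = p.2) =
      (T ×ˢ T).filter (fun p => p.1 = p.2) := by
    apply Finset.filter_congr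
    intro p _
    constructor
    · exact fun h => h.2
    · exact fun h => ⟨by rw [h]; exact lt_irrefl _, h⟩
  have h5 : (T ×ˢ T).filter (fun p => ¬ p.1 < p.2 ∧ ¬ p.1 = p.2) =
      (T ×ˢ T).filter (fun p => p.2 < p.1) := by
    apply Finset.filter_congr
    intro p _
    constructor
    · exact fun h => lt_of_le_of_ne (not_lt.1 h.1) (fun h' => h.2 h'.symm)
    · exact fun h => ⟨not_lt.2 h.le, h.ne'⟩
  rw [h4, h5, h2, h3]
  have h6 : (T ×ˢ T).filter (fun p => p.1 < p.2) = prs T := by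
    rw [prs]
  rw [h6]
  ring

theorem sig_pos (hm : 1 ≤ m) : 0 < (m : ℝ) / Real.logb 2 ((m : ℝ) + 1) := by
  have h1 : (1 : ℝ) ≤ m := by exact_mod_cast hm
  exact div_pos (by linarith) (Real.logb_pos one_lt_two (by linarith))

/-- The final numerical step, with the copositivity as a hypothesis. -/
theorem final_num_of (hm : 1 ≤ m) {d : ℕ} {T : Finset (Fin q)} (k : Fin q → ℕ)
    (hcop : 2 * (T.card : ℝ) * ∑ i ∈ T, (k i : ℝ) ≤ Cst m * ∑ i ∈ T, ∑ j ∈ T, rho m (k i * k j))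
    (hk : ∀ P ∈ T, 1 ≤ k P ∧ k P ≤ d) (a : Fin q → ℝ) {L Dc e₁ e₂ e₃ e₄ e₅ : ℝ} (hL : 1 ≤ L)
    (hDc : 0 ≤ Dc) (he₁ : 0 ≤ e₁) (he₂ : 0 ≤ e₂) (he₃ : 0 ≤ e₃) (he₄ : 0 ≤ e₄) (he₅ : 0 < e₅)
    (h1 : (q : ℝ) ≤ Dc + ∑ P ∈ T, (k P : ℝ) + e₁ * L)
    (h2 : ∀ P ∈ T, a P ≤ L - Dc / (m / Real.logb 2 ((m : ℝ) + 1)) + e₂ * L)
    (h2' : ∀ P ∈ T, a P ≤ L)
    (h3 : ∑ p ∈ prs T, rho m (k p.1 * k p.2) ≤ ∑ P ∈ T, a P + e₃ * L ^ 2)
    (h4 : Dc ≤ m / Real.logb 2 ((m : ℝ) + 1) * (1 + e₄) * L) :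
    (q : ℝ) ≤ (Cst m + e₁ + Cst m * e₂ + Cst m * e₃ / e₅ +
      m / Real.logb 2 ((m : ℝ) + 1) * e₄ +
      Real.sqrt (2 * (m / Real.logb 2 ((m : ℝ) + 1)) * (e₅ + e₃))) * L +
      Cst m * d ^ 2 + d := by
  have hσ := sig_pos hm
  have hCσ := Cst_ge hm
  have hrlin : ∀ x : ℕ, (x : ℝ) ≤ m / Real.logb 2 ((m : ℝ) + 1) * rho m x := by
    intro x
    have hm0 : (0 : ℝ) < m := by exact_mod_cast hm
    have hc0 : 0 < Real.logb 2 ((m : ℝ) + 1) :=
      Real.logb_pos one_lt_two (by linarith)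
    have h5 := mul_le_mul_of_nonneg_left (rho_lin hm x) hσ.le
    refine le_trans (le_of_eq ?_) h5
    field_simp
  set σ : ℝ := m / Real.logb 2 ((m : ℝ) + 1) with hσd
  set C : ℝ := Cst m with hC
  have hC0 : 0 < C := lt_of_lt_of_le hσ hCσ
  set Y : ℝ := ∑ P ∈ T, (k P : ℝ) with hY
  have hY0 : 0 ≤ Y := Finset.sum_nonneg fun _ _ => Nat.cast_nonneg _
  have hd0 : (0 : ℝ) ≤ d := Nat.cast_nonneg d
  have hL0 : 0 < L := by linarith
  set S : ℝ := Real.sqrt (2 * σ * (e₅ + e₃)) with hS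
  have hS0 : 0 ≤ S := Real.sqrt_nonneg _
  have hSsq : S ^ 2 = 2 * σ * (e₅ + e₃) := Real.sq_sqrt (by positivity)
  have hCe : 0 ≤ C * e₃ / e₅ := by positivity
  have hsplit := sum_sym T (fun i j => rho m (k i * k j)) (fun i j => by rw [mul_comm])
  rw [hsplit] at hcop
  by_cases hN : e₅ * L ≤ T.card
  · -- many classes
    have hN0 : (0 : ℝ) < T.card := lt_of_lt_of_le (by positivity) hN
    have h5 : ∑ P ∈ T, a P ≤ T.card * (L - Dc / σ + e₂ * L) := by
      refine (Finset.sum_le_sum h2).trans ?_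
      rw [Finset.sum_const, nsmul_eq_mul]
    have h6 : ∑ i ∈ T, rho m (k i * k i) ≤ T.card * d ^ 2 := by
      have : ∀ i ∈ T, rho m (k i * k i) ≤ (d : ℝ) ^ 2 := by
        intro i hi
        refine (rho_le hm _).trans ?_
        push_cast
        have h7 : (k i : ℝ) ≤ d := by exact_mod_cast (hk i hi).2
        have h8 : (0 : ℝ) ≤ k i := Nat.cast_nonneg _
        rw [sq]
        exact mul_le_mul h7 h7 h8 hd0
      refine (Finset.sum_le_sum this).trans ?_
      rw [Finset.sum_const, nsmul_eq_mul]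
    have h7 : 2 * (T.card : ℝ) * Y ≤
        C * (2 * (T.card * (L - Dc / σ + e₂ * L) + e₃ * L ^ 2) + T.card * d ^ 2) := by
      refine hcop.trans (mul_le_mul_of_nonneg_left ?_ hC0.le)
      linarith
    have h8 : e₃ * L ^ 2 ≤ T.card * (e₃ / e₅ * L) := by
      have h9 : e₃ * L ^ 2 = (e₅ * L) * (e₃ / e₅ * L) := by
        field_simp
      rw [h9]
      exact mul_le_mul_of_nonneg_right hN (by positivity)
    have h9 : 2 * (T.card : ℝ) * Y ≤ 2 * T.card *
        (C * (L - Dc / σ + e₂ * L) + C * (e₃ / e₅ * L) + C * d ^ 2 / 2) := by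
      refine h7.trans ?_
      have h10 := mul_le_mul_of_nonneg_left h8 hC0.le
      have e1 : C * (2 * (T.card * (L - Dc / σ + e₂ * L) + e₃ * L ^ 2) + T.card * d ^ 2) =
          2 * T.card * (C * (L - Dc / σ + e₂ * L)) + 2 * (C * (e₃ * L ^ 2)) +
            2 * T.card * (C * d ^ 2 / 2) := by ring
      have e2 : 2 * (T.card : ℝ) *
          (C * (L - Dc / σ + e₂ * L) + C * (e₃ / e₅ * L) + C * d ^ 2 / 2) =
          2 * T.card * (C * (L - Dc / σ + e₂ * L)) + 2 * (C * (T.card * (e₃ / e₅ * L))) +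
            2 * T.card * (C * d ^ 2 / 2) := by ring
      rw [e1, e2]
      linarith
    have h10 : Y ≤ C * (L - Dc / σ + e₂ * L) + C * (e₃ / e₅ * L) + C * d ^ 2 / 2 :=
      le_of_mul_le_mul_left h9 (by positivity)
    have h11 : Dc ≤ C * (Dc / σ) := by
      have h12 : Dc = σ * (Dc / σ) := by field_simp
      calc Dc = σ * (Dc / σ) := h12
        _ ≤ C * (Dc / σ) := mul_le_mul_of_nonneg_right hCσ (by positivity)
    have h12 : C * (e₃ / e₅ * L) = C * e₃ / e₅ * L := by ring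
    have h13 : 0 ≤ C * (d : ℝ) ^ 2 := by positivity
    have h14 : 0 ≤ σ * e₄ * L := by positivity
    have h15 : 0 ≤ S * L := by positivity
    have e1 : C * (L - Dc / σ + e₂ * L) = C * L - C * (Dc / σ) + C * e₂ * L := by ring
    have h18 : (C + e₁ + C * e₂ + C * e₃ / e₅ + σ * e₄ + S) * L + C * (d : ℝ) ^ 2 + d =
        C * L + e₁ * L + C * e₂ * L + C * e₃ / e₅ * L + σ * e₄ * L + S * L + C * (d : ℝ) ^ 2 +
          d := by ring
    rw [h18]
    rw [e1, h12] at h10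
    linarith
  · -- few classes
    push Not at hN
    have h5 : ∑ P ∈ T, a P ≤ T.card * L := by
      refine (Finset.sum_le_sum h2').trans ?_
      rw [Finset.sum_const, nsmul_eq_mul]
    have h6 : Y * Y ≤ 2 * ∑ p ∈ prs T, ((k p.1 * k p.2 : ℕ) : ℝ) + d * Y := by
      have h7 := sum_sym T (fun i j => ((k i * k j : ℕ) : ℝ)) (fun i j => by rw [mul_comm])
      have h8 : Y * Y = ∑ i ∈ T, ∑ j ∈ T, ((k i * k j : ℕ) : ℝ) := by
        rw [hY, Finset.sum_mul_sum]
        push_cast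
        rfl
      rw [h8, h7]
      have h9 : ∑ i ∈ T, ((k i * k i : ℕ) : ℝ) ≤ d * Y := by
        rw [hY, Finset.mul_sum]
        apply Finset.sum_le_sum
        intro i hi
        push_cast
        have h10 : (k i : ℝ) ≤ d := by exact_mod_cast (hk i hi).2
        exact mul_le_mul_of_nonneg_right h10 (Nat.cast_nonneg _)
      linarith
    have h7 : ∑ p ∈ prs T, ((k p.1 * k p.2 : ℕ) : ℝ) ≤
        σ * ∑ p ∈ prs T, rho m (k p.1 * k p.2) := by
      rw [Finset.mul_sum]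
      exact Finset.sum_le_sum fun p _ => hrlin _
    have h8 : Y * Y ≤ (S * L) ^ 2 + d * Y := by
      have h9 : (T.card : ℝ) * L ≤ e₅ * L * L := mul_le_mul_of_nonneg_right hN.le hL0.le
      have h10 : ∑ p ∈ prs T, rho m (k p.1 * k p.2) ≤ (e₅ + e₃) * L ^ 2 := by
        have h12 : (e₅ + e₃) * L ^ 2 = e₅ * L * L + e₃ * L ^ 2 := by ring
        rw [h12]
        linarith
      have h11 := mul_le_mul_of_nonneg_left h10 hσ.le
      rw [mul_pow, hSsq]
      have h12 : 2 * σ * (e₅ + e₃) * L ^ 2 = 2 * (σ * ((e₅ + e₃) * L ^ 2)) := by ring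
      rw [h12]
      linarith
    have hSL : 0 ≤ S * L := by positivity
    have h9 : Y ≤ S * L + d := by
      by_contra hcon
      push Not at hcon
      have h10 : S * L < Y - d := by linarith
      have h11 : (S * L) * (S * L) ≤ (Y - d) * Y := by
        have h12 : S * L ≤ Y := by linarith
        exact mul_le_mul h10.le h12 hSL (by linarith)
      have h13 : (S * L) * (S * L) < (Y - d) * Y := by
        rcases hSL.eq_or_lt with h | h
        · rw [← h] at h10 ⊢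
          have : 0 < Y := by linarith
          rw [mul_zero]
          exact mul_pos h10 this
        · calc (S * L) * (S * L) < (Y - d) * (S * L) := mul_lt_mul_of_pos_right h10 h
            _ ≤ (Y - d) * Y := mul_le_mul_of_nonneg_left (by linarith) (by linarith)
      have e1 : (Y - d) * Y = Y * Y - d * Y := by ring
      rw [sq] at h8
      rw [e1] at h13
      linarith
    have h13 : 0 ≤ C * (d : ℝ) ^ 2 := by positivity
    have h14 : 0 ≤ C * e₂ * L := by positivity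
    have h15 : 0 ≤ C * e₃ / e₅ * L := by positivity
    have h16 : σ * L ≤ C * L := mul_le_mul_of_nonneg_right hCσ hL0.le
    have h17 : σ * (1 + e₄) * L = σ * L + σ * e₄ * L := by ring
    have h18 : (C + e₁ + C * e₂ + C * e₃ / e₅ + σ * e₄ + S) * L + C * (d : ℝ) ^ 2 + d =
        C * L + e₁ * L + C * e₂ * L + C * e₃ / e₅ * L + σ * e₄ * L + S * L + C * (d : ℝ) ^ 2 +
          d := by ring
    rw [h18]
    rw [h17] at h4
    linarith

end H48

end Pool.Agent.Helper65.CG
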